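import Pool.Agent.Helper934.AA6
import Pool.Agent.Helper934.DI1

open Finset
open Pool.Agent.Results.MP_3a3582_co.BoundedRank

namespace Pool.Agent.Results.MP_3a3582_co.RankWindow

open Pool.Agent.Results.MP_3a3582_co.AlmostAll

/-- The value of `τ(G)` for groups of bounded rank. -/
theorem result (R : ℕ) (hR : 1 ≤ R) (δ : ℝ) (hδ : 0 < δ) : ∃ n₀ : ℕ, ∀ L : List ℕ,
    IsTypeList L → L.length ≤ R → n₀ ≤ L.prod →
    (tau (Grp L) = Nat.log 2 L.prod ∨ tau (Grp L) + 1 = Nat.log 2 L.prod) ∧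
    (2 ^ Nat.log 2 L.prod + (L.prod : ℝ) ^ (1 + δ) / (L.headI : ℝ) ^ (1 / (R : ℝ)) ≤
      (L.prod : ℝ) → tau (Grp L) = Nat.log 2 L.prod) ∧
    (∀ (p j : ℕ) (hj : j < L.length), p.Prime → p ≠ 2 → p ∣ L.get ⟨j, hj⟩ →
      (L.prod : ℝ) < 2 ^ Nat.log 2 L.prod +
        (2 : ℝ) ^ ((Nat.log 2 L.prod : ℝ) * (((p : ℝ) ^ j - 1) / ((p : ℝ) ^ (j + 1) - 1))) →
      tau (Grp L) + 1 = Nat.log 2 L.prod) := by
  obtain ⟨n₁, hn₁⟩ := fixed_rank_sharp R hR δ hδ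
  obtain ⟨n₂, hn₂⟩ := dichotomy R hR δ hδ
  refine ⟨max n₁ n₂, fun L hL hlen hN => ?_⟩
  have h1 := hn₁ L hL hlen (le_trans (le_max_left _ _) hN)
  have h2 := hn₂ L hL hlen (le_trans (le_max_right _ _) hN)
  exact ⟨h1.1, h1.2, h2.2.2⟩

end Pool.Agent.Results.MP_3a3582_co.RankWindow
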